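import Pool.Agent.Helper92.LW.Tools

/-!
# LW (MP_fb29e9_nt), block W5: the limits of the means are the integrals of a probability measure
-/

open MeasureTheory Real Set Filter Topology
open CompactlySupported

set_option autoImplicit false

namespace Pool.Agent.Helper75.LW

open Pool.Agent.Helper22.AE
open Pool.Agent.Helper22.AC (cntc)
open Pool.Agent.Helper92.LW

private lemma cut5_nonneg (K : ℕ) (y : ℝ) : 0 ≤ cut K y := le_max_left _ _

private lemma cut5_le_one (K : ℕ) (y : ℝ) : cut K y ≤ 1 := max_le zero_le_one (min_le_left _ _)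

private lemma cut5_cont (K : ℕ) : Continuous (cut K) := by
  unfold cut
  fun_prop

private lemma cut5_eq_one {K : ℕ} {y : ℝ} (h : |y| ≤ (K : ℝ) + 1) : cut K y = 1 := by
  unfold cut
  have hK : (0 : ℝ) < (K : ℝ) + 1 := by positivity
  have h1 : |y| / ((K : ℝ) + 1) ≤ 1 := (div_le_one hK).2 h
  rw [min_eq_left (by linarith), max_eq_right zero_le_one]

private lemma cut5_eq_zero {K : ℕ} {y : ℝ} (h : 2 * ((K : ℝ) + 1) ≤ |y|) : cut K y = 0 := by
  unfold cut
  have hK : (0 : ℝ) < (K : ℝ) + 1 := by positivity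
  have h1 : 2 ≤ |y| / ((K : ℝ) + 1) := (le_div_iff₀ hK).2 h
  exact max_eq_left ((min_le_right _ _).trans (by linarith))

private lemma cut5_mono (y : ℝ) : Monotone fun K : ℕ => cut K y := by
  intro K K' h
  have hK : (0 : ℝ) < (K : ℝ) + 1 := by positivity
  have h1 : (K : ℝ) + 1 ≤ (K' : ℝ) + 1 := by
    have : (K : ℝ) ≤ K' := by exact_mod_cast h
    linarith
  have h2 : |y| / ((K' : ℝ) + 1) ≤ |y| / ((K : ℝ) + 1) := div_le_div_of_nonneg_left (abs_nonneg _) hK h1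
  simp only [cut]
  exact max_le_max le_rfl (min_le_min le_rfl (by linarith))

private lemma cut5_supp (K : ℕ) {φ : ℝ → ℝ} : HasCompactSupport fun y => φ y * cut K y := by
  refine HasCompactSupport.intro (K := Icc (-(2 * ((K : ℝ) + 1))) (2 * ((K : ℝ) + 1))) isCompact_Icc fun y hy => ?_
  have h1 : 2 * ((K : ℝ) + 1) ≤ |y| := by
    by_contra hcon
    exact hy (abs_le.1 (not_le.1 hcon).le)
  rw [cut5_eq_zero h1, mul_zero]

/-- continuous, of polynomial growth -/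
private def PG (φ : ℝ → ℝ) : Prop := Continuous φ ∧ ∃ (A : ℝ) (q : ℕ), ∀ y, |φ y| ≤ A * (1 + |y|) ^ q

private lemma pg_abs {φ : ℝ → ℝ} (h : PG φ) : PG fun y => |φ y| := by
  obtain ⟨h1, A, q, h2⟩ := h
  exact ⟨h1.abs, A, q, fun y => by rw [abs_abs]; exact h2 y⟩

private lemma pg_cut {φ : ℝ → ℝ} (h : PG φ) (K : ℕ) : PG fun y => φ y * cut K y := by
  obtain ⟨h1, A, q, h2⟩ := h
  refine ⟨h1.mul (cut5_cont K), A, q, fun y => ?_⟩
  rw [abs_mul, abs_of_nonneg (cut5_nonneg K y)]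
  exact (mul_le_of_le_one_right (abs_nonneg _) (cut5_le_one K y)).trans (h2 y)

private lemma pg_sq {φ : ℝ → ℝ} (h : PG φ) : PG fun y => |φ y| * y ^ 2 := by
  obtain ⟨h1, A, q, h2⟩ := h
  refine ⟨h1.abs.mul (continuous_pow 2), A, q + 2, fun y => ?_⟩
  rw [abs_mul, abs_abs, abs_of_nonneg (sq_nonneg y), pow_add, ← mul_assoc]
  have h3 : y ^ 2 ≤ (1 + |y|) ^ 2 := by
    rw [← sq_abs y]
    exact pow_le_pow_left₀ (abs_nonneg _) (by linarith) 2
  exact mul_le_mul (h2 y) h3 (sq_nonneg y) ((abs_nonneg _).trans (h2 y))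

private lemma pg_cc (f : C_c(ℝ, ℝ)) : PG f := by
  obtain ⟨B, hB⟩ := f.hasCompactSupport.exists_bound_of_continuous f.continuous
  exact ⟨f.continuous, B, 0, fun y => by simpa [Real.norm_eq_abs] using hB y⟩

private lemma pg_one : PG fun _ => (1 : ℝ) := ⟨continuous_const, 1, 0, fun y => by simp⟩

/-- the abstract form -/
private theorem law_abs {S : (ℝ → ℝ) → ℕ → ℝ}
    (hadd : ∀ φ ψ : ℝ → ℝ, Continuous φ → Continuous ψ → ∀ n, S (fun y => φ y + ψ y) n = S φ n + S ψ n)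
    (hsmul : ∀ (a : ℝ) (φ : ℝ → ℝ), Continuous φ → ∀ n, S (fun y => a * φ y) n = a * S φ n)
    (hmono : ∀ φ ψ : ℝ → ℝ, Continuous φ → Continuous ψ → (∀ y, φ y ≤ ψ y) → ∀ n, S φ n ≤ S ψ n)
    (hone : ∀ n, S (fun _ => 1) n = 1)
    (hlim : ∀ φ : ℝ → ℝ, PG φ → ∃ m : ℝ, Tendsto (S φ) atTop (𝓝 m)) :
    ∃ ν : Measure ℝ, IsProbabilityMeasure ν ∧ ∀ φ : ℝ → ℝ, PG φ → Integrable φ ν ∧ Tendsto (S φ) atTop (𝓝 (∫ y, φ y ∂ν)) := by
  set m : (ℝ → ℝ) → ℝ := fun φ => limUnder atTop (S φ) with hmdef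
  have hm : ∀ φ, PG φ → Tendsto (S φ) atTop (𝓝 (m φ)) := fun φ h => tendsto_nhds_limUnder (hlim φ h)
  have mmono : ∀ φ ψ : ℝ → ℝ, PG φ → PG ψ → (∀ y, φ y ≤ ψ y) → m φ ≤ m ψ := fun φ ψ h1 h2 h =>
    le_of_tendsto_of_tendsto' (hm φ h1) (hm ψ h2) (hmono φ ψ h1.1 h2.1 h)
  have msmul : ∀ (a : ℝ) (φ : ℝ → ℝ), PG φ → PG (fun y => a * φ y) → m (fun y => a * φ y) = a * m φ := by
    intro a φ h1 h2
    have e : S (fun y => a * φ y) = fun n => a * S φ n := funext (hsmul a φ h1.1)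
    refine tendsto_nhds_unique (hm _ h2) ?_
    rw [e]
    exact (hm φ h1).const_mul a
  have madd : ∀ φ ψ : ℝ → ℝ, PG φ → PG ψ → PG (fun y => φ y + ψ y) → m (fun y => φ y + ψ y) = m φ + m ψ := by
    intro φ ψ h1 h2 h3
    have e : S (fun y => φ y + ψ y) = fun n => S φ n + S ψ n := funext (hadd φ ψ h1.1 h2.1)
    refine tendsto_nhds_unique (hm _ h3) ?_
    rw [e]
    exact (hm φ h1).add (hm ψ h2)
  have mone : m (fun _ => 1) = 1 := by
    have e : S (fun _ => 1) = fun _ => 1 := funext hone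
    refine tendsto_nhds_unique (hm _ pg_one) ?_
    rw [e]
    exact tendsto_const_nhds
  set Λ : C_c(ℝ, ℝ) →ₚ[ℝ] ℝ :=
    { toFun := fun f => m f
      map_add' := fun f g => madd f g (pg_cc f) (pg_cc g) (pg_cc (f + g))
      map_smul' := fun a f => msmul a f (pg_cc f) (pg_cc (a • f))
      monotone' := fun f g h => mmono f g (pg_cc f) (pg_cc g) h } with hΛ
  set ν : Measure ℝ := RealRMK.rieszMeasure Λ with hν
  have hint : ∀ f : C_c(ℝ, ℝ), ∫ y, f y ∂ν = m f := fun f => RealRMK.integral_rieszMeasure Λ f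
  -- compact supports
  have hcut : ∀ (φ : ℝ → ℝ), PG φ → ∀ K : ℕ, ∫ y, φ y * cut K y ∂ν = m (fun y => φ y * cut K y) := fun φ h K =>
    hint ⟨⟨fun y => φ y * cut K y, (pg_cut h K).1⟩, cut5_supp K⟩
  have hicut : ∀ (φ : ℝ → ℝ), PG φ → ∀ K : ℕ, Integrable (fun y => φ y * cut K y) ν := fun φ h K =>
    (pg_cut h K).1.integrable_of_hasCompactSupport (cut5_supp K)
  -- the integral of `|φ|`
  have habs : ∀ (φ : ℝ → ℝ), PG φ → Integrable φ ν := by
    intro φ h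
    have h1 : ∀ K : ℕ, ∫⁻ y, ENNReal.ofReal (|φ y| * cut K y) ∂ν ≤ ENNReal.ofReal (m fun y => |φ y|) := by
      intro K
      rw [← ofReal_integral_eq_lintegral_ofReal (hicut _ (pg_abs h) K)
        (Eventually.of_forall fun y => mul_nonneg (abs_nonneg _) (cut5_nonneg K y)), hcut _ (pg_abs h) K]
      refine ENNReal.ofReal_le_ofReal (mmono _ _ (pg_cut (pg_abs h) K) (pg_abs h) fun y => ?_)
      exact mul_le_of_le_one_right (abs_nonneg _) (cut5_le_one K y)
    have h2 : ∫⁻ y, ENNReal.ofReal |φ y| ∂ν ≤ ENNReal.ofReal (m fun y => |φ y|) := by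
      have e : ∀ y, ENNReal.ofReal |φ y| = ⨆ K : ℕ, ENNReal.ofReal (|φ y| * cut K y) := by
        intro y
        apply le_antisymm
        · obtain ⟨K, hK⟩ := exists_nat_ge |y|
          refine le_iSup_of_le K ?_
          rw [cut5_eq_one (by linarith), mul_one]
        · refine iSup_le fun K => ENNReal.ofReal_le_ofReal ?_
          exact mul_le_of_le_one_right (abs_nonneg _) (cut5_le_one K y)
      simp_rw [e]
      rw [lintegral_iSup (fun K => ((pg_cut (pg_abs h) K).1.measurable).ennreal_ofReal)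
        (fun K K' hK y => ENNReal.ofReal_le_ofReal (mul_le_mul_of_nonneg_left (cut5_mono y hK) (abs_nonneg _)))]
      exact iSup_le h1
    refine ⟨h.1.aestronglyMeasurable, ?_⟩
    rw [HasFiniteIntegral]
    refine lt_of_le_of_lt (le_of_eq (lintegral_congr fun y => ?_)) (h2.trans_lt ENNReal.ofReal_lt_top)
    rw [← ofReal_norm, Real.norm_eq_abs]
  -- the tail
  have htail : ∀ (φ : ℝ → ℝ), PG φ → ∀ K : ℕ, |m φ - m (fun y => φ y * cut K y)| ≤ (m fun y => |φ y| * y ^ 2) * (((K : ℝ) + 1) ^ 2)⁻¹ := by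
    intro φ h K
    have hK : (0 : ℝ) < (K : ℝ) + 1 := by positivity
    have hp1 : ∀ y, |φ y - φ y * cut K y| ≤ (((K : ℝ) + 1) ^ 2)⁻¹ * (|φ y| * y ^ 2) := by
      intro y
      have e : φ y - φ y * cut K y = φ y * (1 - cut K y) := by ring
      rw [e, abs_mul, abs_of_nonneg (by linarith [cut5_le_one K y] : (0 : ℝ) ≤ 1 - cut K y)]
      rcases le_total |y| ((K : ℝ) + 1) with h1 | h1
      · rw [cut5_eq_one h1, sub_self, mul_zero]
        positivity
      · have h3 : 1 ≤ (((K : ℝ) + 1) ^ 2)⁻¹ * y ^ 2 := by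
          rw [← sq_abs y, inv_mul_eq_div, one_le_div (by positivity)]
          exact pow_le_pow_left₀ hK.le h1 2
        calc |φ y| * (1 - cut K y) ≤ |φ y| * 1 := mul_le_mul_of_nonneg_left (by linarith [cut5_nonneg K y]) (abs_nonneg _)
          _ ≤ |φ y| * ((((K : ℝ) + 1) ^ 2)⁻¹ * y ^ 2) := mul_le_mul_of_nonneg_left h3 (abs_nonneg _)
          _ = (((K : ℝ) + 1) ^ 2)⁻¹ * (|φ y| * y ^ 2) := by ring
    have hs := pg_sq h
    have hs2 : PG (fun y => (((K : ℝ) + 1) ^ 2)⁻¹ * (|φ y| * y ^ 2)) := by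
      obtain ⟨h1, A, q, h2⟩ := hs
      refine ⟨continuous_const.mul h1, (((K : ℝ) + 1) ^ 2)⁻¹ * A, q, fun y => ?_⟩
      rw [abs_mul, abs_of_nonneg (by positivity : (0 : ℝ) ≤ (((K : ℝ) + 1) ^ 2)⁻¹), mul_assoc]
      exact mul_le_mul_of_nonneg_left (h2 y) (by positivity)
    have c1 : Continuous fun y => φ y - φ y * cut K y := h.1.sub (pg_cut h K).1
    have c2 : Continuous fun y => (-1) * ((((K : ℝ) + 1) ^ 2)⁻¹ * (|φ y| * y ^ 2)) := continuous_const.mul hs2.1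
    have e1 : ∀ n, S φ n = S (fun y => φ y * cut K y) n + S (fun y => φ y - φ y * cut K y) n := by
      intro n
      rw [← hadd (fun y => φ y * cut K y) (fun y => φ y - φ y * cut K y) (pg_cut h K).1 c1 n]
      exact congrArg (fun f => S f n) (funext fun y => by ring)
    have hb : ∀ n, |S φ n - S (fun y => φ y * cut K y) n| ≤ (((K : ℝ) + 1) ^ 2)⁻¹ * S (fun y => |φ y| * y ^ 2) n := by
      intro n
      have e2 : S φ n - S (fun y => φ y * cut K y) n = S (fun y => φ y - φ y * cut K y) n := by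
        rw [e1]
        ring
      rw [e2, ← hsmul _ _ hs.1 n, abs_le]
      constructor
      · have e3 : -S (fun y => (((K : ℝ) + 1) ^ 2)⁻¹ * (|φ y| * y ^ 2)) n =
            S (fun y => (-1) * ((((K : ℝ) + 1) ^ 2)⁻¹ * (|φ y| * y ^ 2))) n := by
          rw [hsmul (-1) _ hs2.1 n]
          ring
        rw [e3]
        refine hmono (fun y => (-1) * ((((K : ℝ) + 1) ^ 2)⁻¹ * (|φ y| * y ^ 2))) (fun y => φ y - φ y * cut K y) c2 c1 (fun y => ?_) n
        have := (abs_le.1 (hp1 y)).1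
        linarith
      · exact hmono (fun y => φ y - φ y * cut K y) _ c1 hs2.1 (fun y => (abs_le.1 (hp1 y)).2) n
    have h4 := le_of_tendsto_of_tendsto' ((hm φ h).sub (hm _ (pg_cut h K))).abs ((hm _ hs).const_mul _) hb
    rw [mul_comm]
    exact h4
  have hmain : ∀ (φ : ℝ → ℝ), PG φ → ∫ y, φ y ∂ν = m φ := by
    intro φ h
    have h1 : Tendsto (fun K : ℕ => ∫ y, φ y * cut K y ∂ν) atTop (𝓝 (∫ y, φ y ∂ν)) := by
      refine tendsto_integral_of_dominated_convergence (fun y => |φ y|) (fun K => (pg_cut h K).1.aestronglyMeasurable)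
        (habs _ (pg_abs h)) (fun K => Eventually.of_forall fun y => ?_) (Eventually.of_forall fun y => ?_)
      · rw [Real.norm_eq_abs, abs_mul, abs_of_nonneg (cut5_nonneg K y)]
        exact mul_le_of_le_one_right (abs_nonneg _) (cut5_le_one K y)
      · obtain ⟨K, hK⟩ := exists_nat_ge |y|
        refine tendsto_const_nhds.congr' ?_
        filter_upwards [eventually_ge_atTop K] with K' hK'
        have : (K : ℝ) ≤ K' := by exact_mod_cast hK'
        rw [cut5_eq_one (by linarith), mul_one]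
    have h2 : Tendsto (fun K : ℕ => m (fun y => φ y * cut K y)) atTop (𝓝 (m φ)) := by
      have h3 : Tendsto (fun K : ℕ => (m fun y => |φ y| * y ^ 2) * (((K : ℝ) + 1) ^ 2)⁻¹) atTop (𝓝 0) := by
        have h4 : Tendsto (fun K : ℕ => (((K : ℝ) + 1) ^ 2)⁻¹) atTop (𝓝 0) := by
          have h5 := (tendsto_one_div_add_atTop_nhds_zero_nat (𝕜 := ℝ)).pow 2
          refine (h5.congr fun K => ?_).trans (by simp)
          rw [one_div, inv_pow]
        simpa using h4.const_mul (m fun y => |φ y| * y ^ 2)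
      rw [tendsto_iff_dist_tendsto_zero]
      refine squeeze_zero (fun _ => dist_nonneg) (fun K => ?_) h3
      rw [dist_comm, Real.dist_eq]
      exact htail φ h K
    refine tendsto_nhds_unique h1 ?_
    simp_rw [hcut φ h]
    exact h2
  refine ⟨ν, ⟨?_⟩, fun φ h => ⟨habs φ h, ?_⟩⟩
  · have h1 := habs _ pg_one
    have h2 := hmain _ pg_one
    rw [mone] at h2
    have h3 : IsFiniteMeasure ν := (integrable_const_iff_isFiniteMeasure one_ne_zero).1 h1
    rw [integral_const, smul_eq_mul, mul_one, Measure.real] at h2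
    rw [← ENNReal.ofReal_toReal (measure_ne_top ν univ), h2, ENNReal.ofReal_one]
  · rw [hmain φ h]
    exact hm φ h

theorem exists_law {H : ℝ → ℝ} (hH : ContDiff ℝ 2 H) (hp : Function.Periodic H (2 * π))
    (h : ∀ φ : ℝ → ℝ, Continuous φ → ∀ (A : ℝ) (q : ℕ), (∀ y, |φ y| ≤ A * (1 + |y|) ^ q) → LimF H φ) :
    ∃ ν : Measure ℝ, IsProbabilityMeasure ν ∧ ∀ φ : ℝ → ℝ, Continuous φ → ∀ (A : ℝ) (q : ℕ), (∀ y, |φ y| ≤ A * (1 + |y|) ^ q) →
      Integrable φ ν ∧ ∀ ε : ℝ, 0 < ε → ∃ X₀ : ℝ, 1 ≤ X₀ ∧ ∀ X : ℝ, X₀ ≤ X → ∀ c : ℝ × ℝ,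
        |X⁻¹ * (∫ R in Icc X (2 * X), φ ((cntc H c R - area H * R ^ 2) / sqrt R)) - ∫ y, φ y ∂ν| ≤ ε := by
  have hHc := hH.continuous
  have hX : ∀ n : ℕ, (1 : ℝ) ≤ (n : ℝ) + 1 := fun n => by
    have : (0 : ℝ) ≤ n := Nat.cast_nonneg n
    linarith
  have hb : ∀ (φ : ℝ → ℝ), Continuous φ → ∀ n : ℕ, BM ((n : ℝ) + 1) fun R => φ ((cntc H 0 R - area H * R ^ 2) / sqrt R) :=
    fun φ hφ n => (u_bm hHc hp 0 (hX n)).comp hφ
  obtain ⟨ν, hν, hmain⟩ := law_abs
    (S := fun φ n => ((n : ℝ) + 1)⁻¹ * ∫ R in Icc ((n : ℝ) + 1) (2 * ((n : ℝ) + 1)), φ ((cntc H 0 R - area H * R ^ 2) / sqrt R))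
    (fun φ ψ h1 h2 n => by
      simp only
      rw [integral_add (hb φ h1 n).int (hb ψ h2 n).int, mul_add])
    (fun a φ h1 n => by
      simp only
      rw [integral_const_mul]
      ring)
    (fun φ ψ h1 h2 h3 n => mean_mono (hX n) (hb φ h1 n) (hb ψ h2 n) fun R _ => h3 _)
    (fun n => mean_const (hX n) 1)
    (fun φ ⟨h1, A, q, h2⟩ => by
      obtain ⟨m, hm⟩ := h φ h1 A q h2
      refine ⟨m, Metric.tendsto_atTop.2 fun ε hε => ?_⟩
      obtain ⟨X₀, hX₀, h3⟩ := hm (ε / 2) (by positivity)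
      obtain ⟨N, hN⟩ := exists_nat_ge X₀
      refine ⟨N, fun n hn => ?_⟩
      have h4 : (N : ℝ) ≤ n := by exact_mod_cast hn
      have h5 := h3 ((n : ℝ) + 1) (by linarith) 0
      rw [Real.dist_eq]
      linarith)
  refine ⟨ν, hν, fun φ h1 A q h2 => ?_⟩
  obtain ⟨h3, h4⟩ := hmain φ ⟨h1, A, q, h2⟩
  refine ⟨h3, ?_⟩
  obtain ⟨m, hm⟩ := h φ h1 A q h2
  have e : ∫ y, φ y ∂ν = m := by
    refine tendsto_nhds_unique h4 (Metric.tendsto_atTop.2 fun ε hε => ?_)
    obtain ⟨X₀, hX₀, h5⟩ := hm (ε / 2) (by positivity)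
    obtain ⟨N, hN⟩ := exists_nat_ge X₀
    refine ⟨N, fun n hn => ?_⟩
    have h6 : (N : ℝ) ≤ n := by exact_mod_cast hn
    have h7 := h5 ((n : ℝ) + 1) (by linarith) 0
    rw [Real.dist_eq]
    linarith
  rw [e]
  exact hm

end Pool.Agent.Helper75.LW
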